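import Pool.Agent.Q276.PL.Stm

set_option autoImplicit false

namespace Pool.Agent.Q109.PLJ

open Polynomial Pool.Agent.W223.HZ Pool.Agent.W223.PL Pool.Agent.Q276.PL

theorem ar_nat (a b d y : ℕ) (ha : 0 < a) (hb : 0 < b) (hd : 0 < d) (_hy : 0 < y)
    (hab : Nat.Coprime a b) (h : a * b = d * y ^ 2) :
    ∃ e e' r s : ℕ, 0 < e ∧ 0 < e' ∧ 0 < r ∧ 0 < s ∧ e * e' = d ∧ r * s = y ∧ a = e * r ^ 2 ∧
      b = e' * s ^ 2 := by
  have h1 : Nat.gcd d a * Nat.gcd d b = d := by
    rw [← Nat.Coprime.gcd_mul d hab, h]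
    exact Nat.gcd_eq_left (Dvd.intro _ rfl)
  obtain ⟨a1, ha1⟩ := Nat.gcd_dvd_right d a
  obtain ⟨b1, hb1⟩ := Nat.gcd_dvd_right d b
  set e := Nat.gcd d a with he
  set e' := Nat.gcd d b with he'
  have he0 : 0 < e := Nat.gcd_pos_of_pos_left _ hd
  have he'0 : 0 < e' := Nat.gcd_pos_of_pos_left _ hd
  have h2 : a1 * b1 = y ^ 2 := by
    have h3 : d * (a1 * b1) = d * y ^ 2 := by
      rw [← h]
      conv_rhs => rw [ha1, hb1]
      conv_lhs => rw [← h1]
      ring
    exact Nat.eq_of_mul_eq_mul_left hd h3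
  have h3 : Nat.Coprime a1 b1 := by
    have h4 : a1 ∣ a := Dvd.intro_left _ ha1.symm
    have h5 : b1 ∣ b := Dvd.intro_left _ hb1.symm
    exact Nat.Coprime.coprime_dvd_left h4 (Nat.Coprime.coprime_dvd_right h5 hab)
  obtain ⟨r, hr⟩ := exists_eq_pow_of_mul_eq_pow (a := a1) (b := b1) (c := y) (k := 2)
    (by rw [Nat.isUnit_iff]; exact h3) h2
  obtain ⟨s, hs⟩ := exists_eq_pow_of_mul_eq_pow (a := b1) (b := a1) (c := y) (k := 2)
    (by rw [Nat.isUnit_iff]; exact h3.symm) (by rw [mul_comm]; exact h2)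
  have hr0 : 0 < r := by
    rcases Nat.eq_zero_or_pos r with h0 | h0
    · rw [h0] at hr
      rw [hr] at ha1
      simp at ha1
      omega
    · exact h0
  have hs0 : 0 < s := by
    rcases Nat.eq_zero_or_pos s with h0 | h0
    · rw [h0] at hs
      rw [hs] at hb1
      simp at hb1
      omega
    · exact h0
  have h6 : r * s = y := by
    have h7 : (r * s) ^ 2 = y ^ 2 := by rw [mul_pow, ← hr, ← hs, h2]
    exact Nat.pow_left_injective (by norm_num : 2 ≠ 0) h7
  refine ⟨e, e', r, s, he0, he'0, hr0, hs0, h1, h6, ?_, ?_⟩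
  · rw [ha1, hr]
  · rw [hb1, hs]

theorem ar_int (a b d y : ℤ) (ha : 0 < a) (hb : 0 < b) (hd : 0 < d) (hy : 0 < y)
    (hab : IsCoprime a b) (h : a * b = d * y ^ 2) :
    ∃ e e' r s : ℤ, 1 ≤ e ∧ 1 ≤ e' ∧ 1 ≤ r ∧ 1 ≤ s ∧ e * e' = d ∧ r * s = y ∧ a = e * r ^ 2 ∧
      b = e' * s ^ 2 ∧ IsCoprime (e * r) s ∧ IsCoprime (e' * s) r := by
  obtain ⟨a, rfl⟩ := Int.eq_ofNat_of_zero_le ha.le
  obtain ⟨b, rfl⟩ := Int.eq_ofNat_of_zero_le hb.le
  obtain ⟨d, rfl⟩ := Int.eq_ofNat_of_zero_le hd.le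
  obtain ⟨y, rfl⟩ := Int.eq_ofNat_of_zero_le hy.le
  obtain ⟨e, e', r, s, h1, h2, h3, h4, h5, h6, h7, h8⟩ := ar_nat a b d y (by exact_mod_cast ha)
    (by exact_mod_cast hb) (by exact_mod_cast hd) (by exact_mod_cast hy)
    (Nat.isCoprime_iff_coprime.mp hab) (by exact_mod_cast h)
  refine ⟨e, e', r, s, by exact_mod_cast h1, by exact_mod_cast h2, by exact_mod_cast h3,
    by exact_mod_cast h4, by exact_mod_cast h5, by exact_mod_cast h6, by exact_mod_cast h7,
    by exact_mod_cast h8, ?_, ?_⟩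
  · have h9 : ((e : ℤ) * r) ∣ (a : ℤ) := ⟨r, by rw [h7]; push_cast; ring⟩
    have h10 : (s : ℤ) ∣ (b : ℤ) := ⟨e' * s, by rw [h8]; push_cast; ring⟩
    exact (hab.of_isCoprime_of_dvd_left h9).of_isCoprime_of_dvd_right h10
  · have h9 : (r : ℤ) ∣ (a : ℤ) := ⟨e * r, by rw [h7]; push_cast; ring⟩
    have h10 : ((e' : ℤ) * s) ∣ (b : ℤ) := ⟨s, by rw [h8]; push_cast; ring⟩
    exact (((hab.of_isCoprime_of_dvd_left h9)).of_isCoprime_of_dvd_right h10).symm

theorem ar : StmtAR := by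
  intro d x y hd hsq ⟨hx, hy, hxy, hmin⟩
  have hd0 : 0 < d := by linarith
  have hprod : (x - 1) * (x + 1) = d * y ^ 2 := by linarith
  have hx1 : 1 < x := by
    rcases lt_or_eq_of_le hx with h | h
    · exact h
    · exfalso
      rw [← h] at hxy
      have : 0 < d * y ^ 2 := by positivity
      linarith
  rcases Int.even_or_odd x with hev | hodd
  · obtain ⟨k, hk⟩ := hev
    have hcop : IsCoprime (x - 1) (x + 1) := ⟨k, 1 - k, by rw [hk]; ring⟩
    obtain ⟨e, e', r, s, h1, h2, h3, h4, h5, h6, h7, h8, h9, h10⟩ := ar_int (x - 1) (x + 1) d y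
      (by linarith) (by linarith) hd0 (by linarith) hcop hprod
    refine ⟨e, e', r, s, 2, h1, h2, h3, h4, h5, Or.inr rfl, ?_, ?_, ?_, h9, h10, ?_⟩
    · rw [h7, ← h6]; ring
    · rw [h8, ← h6]; ring
    · rw [← h7, ← h8]; ring
    · rintro ⟨t, ht⟩
      have hodd : (e' * s ^ 2) % 2 = 1 := by rw [← h8]; omega
      have he'odd : e' % 2 = 1 := by
        rcases Int.emod_two_eq_zero_or_one e' with h | h
        · rw [Int.mul_emod, h] at hodd
          simp at hodd
        · exact h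
      have h11 : (2 * e') % 4 = 2 := by omega
      rw [ht] at h11
      rcases Int.even_or_odd' t with ⟨j, hj | hj⟩
      · rw [hj] at h11
        have : (2 * j * (2 * j)) % 4 = 0 := by
          rw [show 2 * j * (2 * j) = 4 * (j * j) by ring]
          exact Int.mul_emod_right 4 _
        omega
      · rw [hj] at h11
        have : ((2 * j + 1) * (2 * j + 1)) % 4 = 1 := by
          rw [show (2 * j + 1) * (2 * j + 1) = 1 + 4 * (j * j + j) by ring]
          rw [Int.add_mul_emod_self_left]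
          norm_num
        omega
  · obtain ⟨k, hk⟩ := hodd
    have hyev : Even y := by
      by_contra hne
      rw [Int.not_even_iff_odd] at hne
      obtain ⟨j, hj⟩ := hne
      obtain ⟨w, hw⟩ := Int.even_mul_succ_self k
      obtain ⟨t, ht⟩ := Int.even_mul_succ_self j
      have h1 : d = 2 * 2 * (2 * w - 2 * d * t) := by
        have h2 : (x - 1) * (x + 1) = 4 * (k * (k + 1)) := by rw [hk]; ring
        have h3 : y ^ 2 = 4 * (j * (j + 1)) + 1 := by rw [hj]; ring
        rw [h2, h3, hw, ht] at hprod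
        linarith
      have h2 := hsq 2 ⟨_, h1⟩
      have h3 := Int.isUnit_iff.mp h2
      omega
    obtain ⟨y1, hy1⟩ := hyev
    have hcop : IsCoprime k (k + 1) := ⟨-1, 1, by ring⟩
    have hk0 : 0 < k := by omega
    have hy10 : 0 < y1 := by omega
    have hprod' : k * (k + 1) = d * y1 ^ 2 := by
      have h2 : (x - 1) * (x + 1) = 4 * (k * (k + 1)) := by rw [hk]; ring
      have h3 : d * y ^ 2 = 4 * (d * y1 ^ 2) := by rw [hy1]; ring
      linarith
    obtain ⟨e, e', r, s, h1, h2, h3, h4, h5, h6, h7, h8, h9, h10⟩ := ar_int k (k + 1) d y1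
      hk0 (by linarith) hd0 hy10 hcop hprod'
    have hyrs : y = 2 * (r * s) := by rw [h6, hy1]; ring
    refine ⟨e, e', r, s, 1, h1, h2, h3, h4, h5, Or.inl rfl, ?_, ?_, ?_, h9, h10, ?_⟩
    · rw [show x - 1 = 2 * k by rw [hk]; ring, h7, hyrs]; ring
    · rw [show x + 1 = 2 * (k + 1) by rw [hk]; ring, h8, hyrs]; ring
    · rw [← h7, ← h8]; ring
    · rintro ⟨t, ht⟩
      rw [one_mul] at ht
      have h11 : e' ∣ d := ⟨e, by rw [← h5]; ring⟩
      have h12 : t * t ∣ d := by rw [← ht]; exact h11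
      have h13 := Int.isUnit_iff.mp (hsq t h12)
      have h14 : e' = 1 := by
        rcases h13 with h | h <;> rw [ht, h] <;> norm_num
      have h15 : e = d := by rw [← h5, h14]; ring
      have h16 : s ^ 2 - d * r ^ 2 = 1 := by
        have h17 : e' * s ^ 2 - e * r ^ 2 = 1 := by rw [← h7, ← h8]; ring
        rw [h14, h15] at h17
        linarith
      have h18 := hmin s r h3 h16
      have h19 : r ≤ r * s := by nlinarith
      linarith

end Pool.Agent.Q109.PLJ
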