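import Pool.Agent.Q276.PL.Stm
import Pool.Agent.W131.HZ.VA2

set_option autoImplicit false

namespace Pool.Agent.Q109.PLJ

open Polynomial Pool.Agent.W223.HZ Pool.Agent.W223.PL Pool.Agent.Q276.PL

/-- the points are close to the square root -/
theorem pvg_close {D V d₀ d P Q : ℝ} (hD : 1 ≤ D) (hV : 1 ≤ V) (h0 : D ≤ d₀) (h1 : D ≤ d)
    (hQ : V ≤ Q) (hP : 0 ≤ P) (h : |P ^ 2 - d * Q ^ 2| ≤ D ^ ((1 : ℝ) / 8)) :
    |P / (Q * √d₀) - √(d / d₀)| ≤ (D ^ ((7 : ℝ) / 8) * V ^ 2)⁻¹ := by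
  have hD0 : 0 < D := by linarith
  have hd0 : 0 < d := by linarith
  have hd00 : 0 < d₀ := by linarith
  have hQ0 : 0 < Q := by linarith
  have hs : 0 < √d := Real.sqrt_pos.mpr hd0
  have hs0 : 0 < √d₀ := Real.sqrt_pos.mpr hd00
  have hsq : √d ^ 2 = d := Real.sq_sqrt hd0.le
  have hsq0 : √d₀ ^ 2 = d₀ := Real.sq_sqrt hd00.le
  have e1 : P / (Q * √d₀) - √(d / d₀) = (P - Q * √d) / (Q * √d₀) := by
    rw [Real.sqrt_div hd0.le]
    field_simp
  have e2 : |P - Q * √d| * (Q * √d) ≤ D ^ ((1 : ℝ) / 8) := by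
    have h3 : |P ^ 2 - d * Q ^ 2| = |P - Q * √d| * (P + Q * √d) := by
      rw [← abs_of_nonneg (by positivity : 0 ≤ P + Q * √d), ← abs_mul]
      congr 1
      have : (P - Q * √d) * (P + Q * √d) = P ^ 2 - √d ^ 2 * Q ^ 2 := by ring
      rw [this, hsq]
    rw [h3] at h
    refine le_trans (mul_le_mul_of_nonneg_left ?_ (abs_nonneg _)) h
    linarith
  have e3 : D ^ ((7 : ℝ) / 8) * D ^ ((1 : ℝ) / 8) = D := by
    rw [← Real.rpow_add hD0]
    norm_num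
  have e4 : D ≤ √d * √d₀ := by
    rw [← Real.sqrt_mul hd0.le]
    refine Real.le_sqrt_of_sq_le ?_
    nlinarith
  rw [e1, abs_div, abs_of_pos (by positivity : 0 < Q * √d₀), inv_eq_one_div,
    div_le_div_iff₀ (by positivity) (by positivity), one_mul]
  have h7 : 0 < D ^ ((7 : ℝ) / 8) := Real.rpow_pos_of_pos hD0 _
  -- |P - Q √d| * (D ^ (7/8) * V ^ 2) ≤ Q * √d₀
  have e5 : |P - Q * √d| * (D ^ ((7 : ℝ) / 8) * V ^ 2) * (Q * √d) ≤ (Q * √d₀) * (Q * √d) := by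
    calc |P - Q * √d| * (D ^ ((7 : ℝ) / 8) * V ^ 2) * (Q * √d)
        = (|P - Q * √d| * (Q * √d)) * (D ^ ((7 : ℝ) / 8) * V ^ 2) := by ring
      _ ≤ D ^ ((1 : ℝ) / 8) * (D ^ ((7 : ℝ) / 8) * V ^ 2) :=
          mul_le_mul_of_nonneg_right e2 (by positivity)
      _ = (D ^ ((7 : ℝ) / 8) * D ^ ((1 : ℝ) / 8)) * V ^ 2 := by ring
      _ = D * V ^ 2 := by rw [e3]
      _ ≤ (√d * √d₀) * Q ^ 2 := by
          apply mul_le_mul e4 _ (by positivity) (by positivity)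
          exact pow_le_pow_left₀ (by linarith) hQ 2
      _ = (Q * √d₀) * (Q * √d) := by ring
  exact le_of_mul_le_mul_right e5 (by positivity)

/-- the inequality between the parameters -/
theorem pvg_par {m : ℕ} {D V σ S : ℝ} (hm : 1 ≤ m) (hD : 1 < D) (hσ : 0 ≤ σ)
    (hσm : 2 * (2 * σ + 1) ^ 2 ≤ m) (hV : 1 ≤ V) (hVD : V ≤ D ^ σ) (hS : D ≤ S) (u : ℤ)
    (hu : |u| ≤ m) :
    ((D ^ ((7 : ℝ) / 8) * V ^ 2)⁻¹) ^ ((m : ℤ) - u) *
      (D ^ (1 / (8 * (m : ℝ)))) ^ (m * (m - 1)) *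
      ((D ^ (1 / (8 * (m : ℝ)))) / S) ^ (u.natAbs ^ 2) ≤
    (V ^ (2 * m))⁻¹ * D ^ (-(5 * (m : ℝ) / 8) - 1 / 8) := by
  have hD0 : 0 < D := by linarith
  have hm0 : (0 : ℝ) < m := by exact_mod_cast hm
  have hm1 : (1 : ℝ) ≤ m := by exact_mod_cast hm
  set k := u.natAbs with hk
  have hkm : (k : ℝ) ≤ m := by
    have h1 : (k : ℤ) = |u| := Int.natCast_natAbs u
    have h2 : (k : ℤ) ≤ m := by rw [h1]; exact hu
    exact_mod_cast h2
  set E : ℝ := D ^ ((7 : ℝ) / 8) * V ^ 2 with hE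
  have hE1 : 1 ≤ E := by
    rw [hE]
    have h1 : 1 ≤ D ^ ((7 : ℝ) / 8) := Real.one_le_rpow hD.le (by norm_num)
    have h2 : 1 ≤ V ^ 2 := one_le_pow₀ hV
    nlinarith
  have hE0 : 0 < E := by linarith
  have e1 : (E⁻¹) ^ ((m : ℤ) - u) ≤ (E ^ m)⁻¹ * E ^ k := by
    rw [inv_zpow, ← zpow_neg, show -((m : ℤ) - u) = -(m : ℤ) + u by ring, zpow_add₀ hE0.ne',
      zpow_neg, zpow_natCast]
    apply mul_le_mul_of_nonneg_left _ (by positivity)
    rw [← zpow_natCast]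
    apply zpow_le_zpow_right₀ hE1
    rw [hk, Int.natCast_natAbs]
    exact le_abs_self u
  have e2 : E ^ k ≤ D ^ (7 * (k : ℝ) / 8 + 2 * σ * k) := by
    have h1 : E ≤ D ^ ((7 : ℝ) / 8 + 2 * σ) := by
      rw [hE, Real.rpow_add hD0]
      apply mul_le_mul_of_nonneg_left _ (by positivity)
      calc V ^ 2 ≤ (D ^ σ) ^ 2 := pow_le_pow_left₀ (by linarith) hVD 2
        _ = D ^ (2 * σ) := by rw [← Real.rpow_natCast, ← Real.rpow_mul hD0.le]; norm_num; ring_nf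
    calc E ^ k ≤ (D ^ ((7 : ℝ) / 8 + 2 * σ)) ^ k := pow_le_pow_left₀ hE0.le h1 k
      _ = D ^ (((7 : ℝ) / 8 + 2 * σ) * k) := by rw [← Real.rpow_natCast, ← Real.rpow_mul hD0.le]
      _ = D ^ (7 * (k : ℝ) / 8 + 2 * σ * k) := by congr 1; ring
  have e3 : (E ^ m)⁻¹ = (V ^ (2 * m))⁻¹ * D ^ (-(7 * (m : ℝ) / 8)) := by
    rw [hE, mul_pow, mul_inv, ← pow_mul, mul_comm]
    congr 1
    rw [← Real.rpow_natCast, ← Real.rpow_mul hD0.le, ← Real.rpow_neg hD0.le]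
    congr 1
    ring
  have e4 : (D ^ (1 / (8 * (m : ℝ)))) ^ (m * (m - 1)) = D ^ (((m : ℝ) - 1) / 8) := by
    rw [← Real.rpow_natCast, ← Real.rpow_mul hD0.le]
    congr 1
    rw [Nat.cast_mul, Nat.cast_sub hm, Nat.cast_one]
    field_simp
  have e5 : ((D ^ (1 / (8 * (m : ℝ)))) / S) ^ (k ^ 2) ≤
      D ^ ((1 / (8 * (m : ℝ)) - 1) * (k : ℝ) ^ 2) := by
    have h1 : (D ^ (1 / (8 * (m : ℝ)))) / S ≤ D ^ (1 / (8 * (m : ℝ)) - 1) := by
      rw [Real.rpow_sub hD0, Real.rpow_one]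
      exact div_le_div_of_nonneg_left (by positivity) hD0 hS
    have hS0 : 0 < S := by linarith
    calc ((D ^ (1 / (8 * (m : ℝ)))) / S) ^ (k ^ 2)
        ≤ (D ^ (1 / (8 * (m : ℝ)) - 1)) ^ (k ^ 2) := pow_le_pow_left₀ (by positivity) h1 _
      _ = D ^ ((1 / (8 * (m : ℝ)) - 1) * (k : ℝ) ^ 2) := by
          rw [← Real.rpow_natCast, ← Real.rpow_mul hD0.le]
          push_cast
          rfl
  have e6 : (k : ℝ) ^ 2 / (8 * m) ≤ k / 8 := by
    rw [div_le_div_iff₀ (by positivity) (by norm_num)]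
    have : (0 : ℝ) ≤ k := by positivity
    nlinarith
  calc (E⁻¹) ^ ((m : ℤ) - u) * (D ^ (1 / (8 * (m : ℝ)))) ^ (m * (m - 1)) *
        ((D ^ (1 / (8 * (m : ℝ)))) / S) ^ (k ^ 2)
      ≤ ((E ^ m)⁻¹ * D ^ (7 * (k : ℝ) / 8 + 2 * σ * k)) * D ^ (((m : ℝ) - 1) / 8) *
        D ^ ((1 / (8 * (m : ℝ)) - 1) * (k : ℝ) ^ 2) := by
        rw [e4]
        have hpos : 0 ≤ (D ^ (1 / (8 * (m : ℝ)))) / S := by
          have : 0 < S := by linarith
          positivity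
        apply mul_le_mul _ e5 (pow_nonneg hpos _) (by positivity)
        apply mul_le_mul_of_nonneg_right _ (by positivity)
        exact e1.trans (mul_le_mul_of_nonneg_left e2 (by positivity))
    _ = (V ^ (2 * m))⁻¹ * D ^ (-(7 * (m : ℝ) / 8) + (7 * (k : ℝ) / 8 + 2 * σ * k) +
        ((m : ℝ) - 1) / 8 + (1 / (8 * (m : ℝ)) - 1) * (k : ℝ) ^ 2) := by
        generalize hx1 : -(7 * (m : ℝ) / 8) = x1 at *
        generalize 7 * (k : ℝ) / 8 + 2 * σ * k = x2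
        generalize ((m : ℝ) - 1) / 8 = x3
        generalize (1 / (8 * (m : ℝ)) - 1) * (k : ℝ) ^ 2 = x4
        rw [e3, Real.rpow_add hD0, Real.rpow_add hD0, Real.rpow_add hD0]
        ring
    _ ≤ (V ^ (2 * m))⁻¹ * D ^ (-(5 * (m : ℝ) / 8) - 1 / 8) := by
        apply mul_le_mul_of_nonneg_left _ (by positivity)
        apply Real.rpow_le_rpow_of_exponent_le hD.le
        have h1 : (1 / (8 * (m : ℝ)) - 1) * (k : ℝ) ^ 2 = (k : ℝ) ^ 2 / (8 * m) - (k : ℝ) ^ 2 := by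
          ring
        rw [h1]
        nlinarith [sq_nonneg ((k : ℝ) - (2 * σ + 1) / 2)]

theorem pvg (hDPG : StmtDPG) (hPP1 : StmtPP1) : StmtPVG := by
  obtain ⟨C₄, hC₄, hPP⟩ := hPP1
  obtain ⟨C₅, hC₅, hDP⟩ := hDPG C₄ hC₄
  refine ⟨max (C₄ ^ 2 + 1) (max 2 (8 * Real.log (8 * C₅))), ?_, ?_⟩
  · refine le_trans ?_ (le_max_right _ _)
    refine le_trans ?_ (le_max_left _ _)
    norm_num
  intro m D V σ d₀ P Q d hm hD hσ hσm hlog hV hVD hd0 hd02 hd hdd hQ hP hPQ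
  set C₇ := max (C₄ ^ 2 + 1) (max 2 (8 * Real.log (8 * C₅))) with hC₇
  have hD1 : C₄ ^ 2 + 1 ≤ D := (le_max_left _ _).trans hD
  have hD2 : 2 ≤ D := ((le_max_left _ _).trans (le_max_right _ _)).trans hD
  have hD1' : 1 < D := by linarith
  have hD0 : 0 < D := by linarith
  have hm0 : (0 : ℝ) < m := by exact_mod_cast hm
  have hm1 : (1 : ℝ) ≤ m := by exact_mod_cast hm
  have hlog2 : 8 * Real.log (8 * C₅) * m ≤ Real.log D := by
    refine le_trans (mul_le_mul_of_nonneg_right ?_ hm0.le) hlog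
    exact (le_max_right _ _).trans (le_max_right _ _)
  set L : ℝ := D ^ (1 / (8 * (m : ℝ))) with hL
  have hL0 : 0 < L := Real.rpow_pos_of_pos hD0 _
  have hd00 : (0 : ℝ) < d₀ := by linarith
  have hd01 : (1 : ℤ) ≤ d₀ := by
    have : (1 : ℝ) ≤ d₀ := by linarith
    exact_mod_cast this
  have hLd : C₄ * L ≤ d₀ := by
    have h1 : L ≤ D ^ ((1 : ℝ) / 2) := by
      rw [hL]
      apply Real.rpow_le_rpow_of_exponent_le hD1'.le
      rw [div_le_div_iff₀ (by positivity) (by norm_num)]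
      linarith
    have h2 : C₄ ≤ D ^ ((1 : ℝ) / 2) := by
      rw [← Real.sqrt_eq_rpow]
      apply Real.le_sqrt_of_sq_le
      linarith
    calc C₄ * L ≤ D ^ ((1 : ℝ) / 2) * D ^ ((1 : ℝ) / 2) :=
          mul_le_mul h2 h1 hL0.le (by positivity)
      _ = D := by rw [← Real.rpow_add hD0]; norm_num
      _ ≤ d₀ := hd0
  set e : ℝ := (D ^ ((7 : ℝ) / 8) * V ^ 2)⁻¹ with he
  have he0 : 0 < e := by positivity
  set y : Fin m ⊕ Fin m → ℝ := fun i => (P i : ℝ) / (Q i * √(d₀ : ℝ)) with hy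
  have hpar : Param C₄ (d₀ : ℝ) L e (fun i => d i - d₀) y := by
    apply hPP L e (Fin m ⊕ Fin m) (fun i => d i - d₀) d₀ y hd01 hL0.le hLd
    · intro i
      push_cast
      exact hdd i
    · intro i
      have h1 : ((d₀ : ℝ) + ((d i - d₀ : ℤ) : ℝ)) / d₀ = (d i : ℝ) / d₀ := by
        push_cast
        ring_nf
      rw [h1]
      apply pvg_close hD1'.le hV hd0 (hd i).1 (hQ i).1 (by exact_mod_cast hP i)
      have := hPQ i
      push_cast at this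
      exact this
  set Y : ℝ := (V ^ (2 * m))⁻¹ * D ^ (-(5 * (m : ℝ) / 8) - 1 / 8) with hY
  have hdet := hDP m (d₀ : ℝ) L e hm hd00 hL0 hLd he0 (fun i => d i - d₀) y hpar Y
    (fun u hu => pvg_par hm hD1' hσ hσm hV hVD hd0 u hu)
  set T : ℝ := √(√(d₀ : ℝ)) with hT
  have hT0 : 0 < T := Real.sqrt_pos.mpr (Real.sqrt_pos.mpr hd00)
  have hT2 : T ^ 2 = √(d₀ : ℝ) := Real.sq_sqrt (Real.sqrt_nonneg _)
  have hmain := Pool.Agent.W131.HZ.VA2.det_eq (T := T) (V := 2 * V * T / 200) P Q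
    (fun i => d i - d₀) y hT0
    (by
      intro i
      have hQi : (0 : ℝ) < Q i := by linarith [(hQ i).1]
      rw [hT2, hy]
      have : 0 < √(d₀ : ℝ) := Real.sqrt_pos.mpr hd00
      field_simp)
    (by
      intro i
      have hQi : (0 : ℝ) < Q i := by linarith [(hQ i).1]
      rw [abs_of_pos hQi]
      have := (hQ i).2
      have h2 : (Q i : ℝ) * T ≤ 2 * V * T := mul_le_mul_of_nonneg_right this.le hT0.le
      linarith)
  have hlt : |((Mat m P Q (fun i => d i - d₀)).det : ℝ)| < 1 := by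
    refine hmain.trans_lt ?_
    have h200 : (200 : ℝ) * (2 * V * T / 200) = 2 * V * T := by ring
    rw [h200]
    have h1 : (2 * V * T) ^ (2 * m) ≤ V ^ (2 * m) * (8 ^ m * D ^ ((m : ℝ) / 2)) := by
      have h2 : (2 * V * T) ^ (2 * m) = V ^ (2 * m) * (4 * √(d₀ : ℝ)) ^ m := by
        rw [mul_pow, mul_pow, pow_mul 2, pow_mul T, hT2, mul_pow]
        norm_num
        ring
      rw [h2]
      apply mul_le_mul_of_nonneg_left _ (by positivity)
      have h3 : 4 * √(d₀ : ℝ) ≤ 8 * D ^ ((1 : ℝ) / 2) := by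
        have h4 : √(d₀ : ℝ) ≤ 2 * D ^ ((1 : ℝ) / 2) := by
          rw [← Real.sqrt_eq_rpow]
          apply Real.sqrt_le_iff.mpr
          refine ⟨by positivity, ?_⟩
          rw [mul_pow, Real.sq_sqrt hD0.le]
          linarith
        linarith
      calc (4 * √(d₀ : ℝ)) ^ m ≤ (8 * D ^ ((1 : ℝ) / 2)) ^ m :=
            pow_le_pow_left₀ (by positivity) h3 m
        _ = 8 ^ m * D ^ ((m : ℝ) / 2) := by
            rw [mul_pow, ← Real.rpow_natCast (D ^ ((1 : ℝ) / 2)), ← Real.rpow_mul hD0.le]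
            congr 2
            ring
    have h5 : (8 * C₅) ^ (m ^ 2) ≤ D ^ ((m : ℝ) / 8) := by
      have h8 : 0 < 8 * C₅ := by linarith
      rw [← Real.rpow_natCast, ← Real.exp_log h8, ← Real.exp_mul, ← Real.exp_log hD0,
        ← Real.exp_mul, Real.exp_le_exp]
      push_cast
      nlinarith
    calc (2 * V * T) ^ (2 * m) * |Matrix.det (Matrix.of fun i : Fin m ⊕ Fin m =>
          Sum.elim (fun j : Fin m => ((d i - d₀ : ℤ) : ℝ) ^ (j : ℕ))
            (fun j : Fin m => y i * ((d i - d₀ : ℤ) : ℝ) ^ (j : ℕ)))|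
        ≤ (V ^ (2 * m) * (8 ^ m * D ^ ((m : ℝ) / 2))) * (C₅ ^ (m ^ 2) * Y) :=
          mul_le_mul h1 hdet (abs_nonneg _) (by positivity)
      _ = (8 ^ m * C₅ ^ (m ^ 2)) * D ^ (-((m : ℝ) / 8) - 1 / 8) := by
          rw [hY, show -((m : ℝ) / 8) - 1 / 8 = (m : ℝ) / 2 + (-(5 * (m : ℝ) / 8) - 1 / 8) by ring,
            Real.rpow_add hD0]
          have : V ^ (2 * m) ≠ 0 := by positivity
          field_simp
      _ ≤ D ^ ((m : ℝ) / 8) * D ^ (-((m : ℝ) / 8) - 1 / 8) := by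
          apply mul_le_mul_of_nonneg_right _ (by positivity)
          refine le_trans ?_ h5
          rw [mul_pow]
          apply mul_le_mul_of_nonneg_right _ (by positivity)
          exact pow_le_pow_right₀ (by norm_num) (by nlinarith)
      _ = D ^ (-(1 / 8) : ℝ) := by
          rw [← Real.rpow_add hD0]
          congr 1
          ring
      _ < 1 := Real.rpow_lt_one_of_one_lt_of_neg hD1' (by norm_num)
  have hlt' : |(Mat m P Q (fun i => d i - d₀)).det| < 1 := by exact_mod_cast hlt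
  exact Int.abs_lt_one_iff.1 hlt'

end Pool.Agent.Q109.PLJ
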